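import Pool.Agent.MP_09973c_nt.H58.SpecA

/-!
Counting finite words by properties of their digit sequences, and the shift lemma.
-/

set_option autoImplicit false

namespace Pool.Agent.MP_09973c_nt.H42

open Finset Classical Pool.Agent.MP_09973c_nt.H58

/-- The number of words of length `i` whose digit sequence has the property `Q`. -/
noncomputable def cnt (s i : ℕ) (Q : (ℕ → ℕ) → Prop) : ℕ :=
  (univ.filter fun ω : Fin i → Fin s => Q (wd ω)).card

variable {s : ℕ}

theorem wd_snoc {i : ℕ} (ω : Fin i → Fin s) (e : Fin s) :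
    wd (Fin.snoc ω e : Fin (i + 1) → Fin s) = Function.update (wd ω) i e := by
  funext d
  rcases lt_trichotomy d i with h | rfl | h
  · rw [Function.update_of_ne h.ne]
    simp only [wd, dif_pos h, dif_pos (Nat.lt_succ_of_lt h)]
    exact congrArg _ (Fin.snoc_castSucc (α := fun _ => Fin s) e ω ⟨d, h⟩)
  · rw [Function.update_self]
    simp only [wd, dif_pos (Nat.lt_succ_self d)]
    exact congrArg _ (Fin.snoc_last (α := fun _ => Fin s) e ω)
  · rw [Function.update_of_ne h.ne']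
    simp only [wd, dif_neg (show ¬d < i + 1 by omega), dif_neg (show ¬d < i by omega)]

theorem cnt_succ' (i : ℕ) (Q : (ℕ → ℕ) → Prop) : cnt s (i + 1) Q =
    ∑ ω : Fin i → Fin s, (univ.filter fun e : Fin s => Q (Function.update (wd ω) i e)).card := by
  simp only [cnt, card_filter]
  rw [← (Fin.snocEquiv fun _ : Fin (i + 1) => Fin s).sum_comp, Fintype.sum_prod_type, sum_comm]
  refine sum_congr rfl fun ω _ => sum_congr rfl fun e _ => ?_
  rw [← wd_snoc]
  rfl

theorem cnt_succ (i : ℕ) (Q : (ℕ → ℕ) → Prop) :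
    cnt s (i + 1) Q = ∑ e : Fin s, cnt s i fun dg => Q (Function.update dg i e) := by
  rw [cnt_succ']
  simp only [cnt, card_filter]
  rw [sum_comm]

theorem mem_cnt {i : ℕ} {Q : (ℕ → ℕ) → Prop} {ω : Fin i → Fin s}
    {_ : DecidablePred fun ω : Fin i → Fin s => Q (wd ω)} :
    ω ∈ (univ.filter fun ω : Fin i → Fin s => Q (wd ω)) ↔ Q (wd ω) := by
  rw [mem_filter, and_iff_right (mem_univ _)]

theorem cnt_mono {i : ℕ} {Q Q' : (ℕ → ℕ) → Prop} (h : ∀ dg, Q dg → Q' dg) :
    cnt s i Q ≤ cnt s i Q' :=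
  card_le_card fun _ hω => mem_cnt.2 (h _ (mem_cnt.1 hω))

theorem cnt_congr {i : ℕ} {Q Q' : (ℕ → ℕ) → Prop} (h : ∀ dg, Q dg ↔ Q' dg) :
    cnt s i Q = cnt s i Q' :=
  le_antisymm (cnt_mono fun dg => (h dg).1) (cnt_mono fun dg => (h dg).2)

theorem cnt_exists_le {τ : Type} (i : ℕ) (T : Finset τ) (Q : τ → (ℕ → ℕ) → Prop) :
    cnt s i (fun dg => ∃ t ∈ T, Q t dg) ≤ ∑ t ∈ T, cnt s i (Q t) := by
  refine le_trans (card_le_card ?_) card_biUnion_le
  intro ω hω
  obtain ⟨t, ht, h⟩ := (mem_cnt (Q := fun dg => ∃ t ∈ T, Q t dg)).1 hω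
  exact mem_biUnion.2 ⟨t, ht, mem_cnt.2 h⟩

theorem card_compl_cnt (i : ℕ) (Q : (ℕ → ℕ) → Prop)
    {_ : DecidablePred fun ω : Fin i → Fin s => Q (wd ω)} :
    (univ.filter fun ω : Fin i → Fin s => Q (wd ω))ᶜ.card = cnt s i fun dg => ¬Q dg := by
  refine congrArg card (Finset.ext fun ω => ?_)
  rw [mem_compl, mem_cnt, mem_cnt (Q := fun dg => ¬Q dg)]

theorem cnt_add_not (i : ℕ) (Q : (ℕ → ℕ) → Prop) :
    cnt s i Q + cnt s i (fun dg => ¬Q dg) = s ^ i := by
  rw [cnt, ← card_compl_cnt i Q, card_add_card_compl]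
  simp

/-- `Q` depends only on the first `d` digits. -/
def Dep (d : ℕ) (Q : (ℕ → ℕ) → Prop) : Prop :=
  ∀ dg dg' : ℕ → ℕ, (∀ k < d, dg k = dg' k) → Q dg → Q dg'

theorem cnt_dep {d : ℕ} {Q : (ℕ → ℕ) → Prop} (h : Dep d Q) (n : ℕ) :
    cnt s (d + n) Q = s ^ n * cnt s d Q := by
  induction n with
  | zero => simp
  | succ n ih =>
    rw [← add_assoc, cnt_succ, pow_succ', mul_assoc, ← ih]
    rw [sum_congr rfl fun e _ => cnt_congr (Q' := Q) fun dg =>
      ⟨h _ _ fun k hk => Function.update_of_ne (by omega) _ _,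
        h _ _ fun k hk => (Function.update_of_ne (by omega) _ _).symm⟩]
    simp

theorem cnt_shift (d n : ℕ) (Q : (ℕ → ℕ) → Prop) :
    cnt s (d + n) (fun dg => Q fun k => dg (d + k)) = s ^ d * cnt s n Q := by
  induction n generalizing Q with
  | zero =>
    have h1 : ∀ (i : ℕ) (ω : Fin i → Fin s), (fun k => wd ω (i + k)) = fun _ => 0 := fun i ω => by
      funext k
      simp [wd]
    have h2 : ∀ ω : Fin 0 → Fin s, wd ω = fun _ => 0 := fun ω => by
      funext k
      simp [wd]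
    change cnt s d _ = _
    simp only [cnt, h1, h2]
    by_cases h : Q fun _ => 0 <;> simp [h]
  | succ n ih =>
    rw [← add_assoc, cnt_succ, cnt_succ, mul_sum]
    refine sum_congr rfl fun e _ => ?_
    rw [← ih]
    refine cnt_congr fun dg => ?_
    have : (fun k => Function.update dg (d + n) (e : ℕ) (d + k)) =
        Function.update (fun k => dg (d + k)) n e := by
      funext k
      by_cases hk : k = n
      · subst hk
        simp
      · rw [Function.update_of_ne hk, Function.update_of_ne (by omega)]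
    rw [this]

section Path

variable {k : Type} [Field k] {r : ℕ} {c ζ : k} {rt : k → k}

theorem pth_congr {dg dg' : ℕ → ℕ} {d : ℕ} (h : ∀ j < d, dg j = dg' j) :
    pth r c ζ rt dg d = pth r c ζ rt dg' d := by
  induction d with
  | zero => rfl
  | succ d ih => rw [pth, pth, h d (Nat.lt_succ_self d), ih fun j hj => h j (by omega)]

theorem pth_shift {dg : ℕ → ℕ} {d : ℕ} (h : pth r c ζ rt dg d = 0) (n : ℕ) :
    pth r c ζ rt (fun j => dg (d + j)) n = pth r c ζ rt dg (d + n) := by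
  induction n with
  | zero => exact h.symm
  | succ n ih => rw [pth, ih, ← add_assoc, pth]

theorem pth_pow (hζ : ζ ^ s = 1) (hrt : ∀ x, rt x ^ s = x) (dg : ℕ → ℕ) (d : ℕ) :
    pth r c ζ rt dg (d + 1) ^ s = pth r c ζ rt dg d ^ r - c := by
  rw [pth, mul_pow, hrt, ← pow_mul, mul_comm (dg d), pow_mul, hζ, one_pow, one_mul]

/-- The shift lemma: if half of the words of length `i + h` have no zero from depth `h` on, then a
positive proportion of the words of length `i` have no zero at all. -/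
theorem shift_lemma (hs : 0 < s) (i h : ℕ) (hh : 0 < h)
    (H : s ^ (i + h) ≤ 2 * cnt s (i + h)
      fun dg => ∀ d, h ≤ d → d ≤ i + h → pth r c ζ rt dg d ≠ 0) :
    s ^ i ≤ 2 * h * cnt s i fun dg => ∀ d, 1 ≤ d → d ≤ i → pth r c ζ rt dg d ≠ 0 := by
  set Q : (ℕ → ℕ) → Prop := fun dg => ∀ d, 1 ≤ d → d ≤ i → pth r c ζ rt dg d ≠ 0 with hQ
  have hD : Dep i Q := fun dg dg' e h1 d h2 h3 => by
    rw [← pth_congr (dg := dg) fun j hj => e j (by omega)]
    exact h1 d h2 h3
  have h1 : cnt s (i + h) (fun dg => ∀ d, h ≤ d → d ≤ i + h → pth r c ζ rt dg d ≠ 0) ≤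
      ∑ d ∈ range h, cnt s (i + h) fun dg => Q fun j => dg (d + j) := by
    refine le_trans (cnt_mono fun dg hdg => ?_) (cnt_exists_le _ _ _)
    have h0 : pth r c ζ rt dg 0 = 0 := rfl
    set d := Nat.findGreatest (fun d => pth r c ζ rt dg d = 0) (h - 1) with hd
    have h2 : pth r c ζ rt dg d = 0 :=
      Nat.findGreatest_spec (P := fun d => pth r c ζ rt dg d = 0) (Nat.zero_le _) h0
    have h3 : d ≤ h - 1 := Nat.findGreatest_le _
    refine ⟨d, mem_range.2 (by omega), fun n hn1 hn2 => ?_⟩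
    rw [pth_shift h2]
    by_cases h4 : d + n ≤ h - 1
    · exact Nat.findGreatest_is_greatest (P := fun d => pth r c ζ rt dg d = 0) (by omega) h4
    · exact hdg _ (by omega) (by omega)
  have h2 : ∀ d ∈ range h, cnt s (i + h) (fun dg => Q fun j => dg (d + j)) =
      s ^ h * cnt s i Q := fun d hd => by
    obtain ⟨e, rfl⟩ := Nat.exists_eq_add_of_le (mem_range.1 hd).le
    rw [show i + (d + e) = d + (i + e) by omega, cnt_shift, cnt_dep hD, pow_add, mul_assoc]
  rw [sum_congr rfl h2, sum_const, card_range, smul_eq_mul] at h1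
  refine Nat.le_of_mul_le_mul_left ?_ (pow_pos hs h)
  calc s ^ h * s ^ i = s ^ (i + h) := by rw [pow_add, mul_comm]
    _ ≤ 2 * (h * (s ^ h * cnt s i Q)) := H.trans (Nat.mul_le_mul_left 2 h1)
    _ = s ^ h * (2 * h * cnt s i Q) := by ring

end Path

end Pool.Agent.MP_09973c_nt.H42
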