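import Pool.Agent.MP_09973c_nt.H58.SpecF
import Pool.Agent.MP_09973c_nt.H42.Cnt

/-!
Existence of a good place at which one tower has its first zero at a prescribed level.
-/

set_option autoImplicit false

namespace Pool.Agent.MP_09973c_nt.H42

open Polynomial Finset IntermediateField Classical Pool.Agent.MP_09973c_nt.H58

section Tower

variable {k Ω : Type} [Field k] [Field Ω] [Algebra k Ω] {r s J : ℕ} {S₀ : Set Ω}

theorem tw_le (hr : 0 < r) (T : Tw k r s J S₀) (Q : Plc k Ω) (hb : Q.ν T.b ≤ 1) :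
    ∀ l ≤ J, Q.ν (T.w l) ≤ 1 := by
  intro l
  induction l with
  | zero =>
    intro _
    rw [T.h0, map_mul]
    exact mul_le_one' (Q.triv _) hb
  | succ l ih =>
    intro hl
    rw [← pow_le_one_iff hr.ne', ← map_pow, T.hw l hl]
    refine Q.ν.map_add_le ?_ (Q.triv _)
    rw [map_pow]
    exact pow_le_one' (ih (by omega)) _

theorem red_b (T : Tw k r s J S₀) {Q : Plc k Ω} {y : k} (h : Q.Red (T.w 0) y) :
    Q.Red T.b (y / T.κ) := by
  have := (Plc.red_const (P := Q) T.κ⁻¹).mul h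
  rwa [T.h0, ← mul_assoc, ← map_mul, inv_mul_cancel₀ T.hκ, map_one, one_mul,
    ← div_eq_inv_mul] at this

theorem zero_word (hr : 0 < r) (hs : 0 < s) {ζ : k} {rt : k → k} (hζ : IsPrimitiveRoot ζ s)
    (hrt : ∀ x, rt x ^ s = x) (T : Tw k r s J S₀) (Q : Plc k Ω) (hb : Q.ν T.b ≤ 1) {j : ℕ}
    (hj : j ≤ J) (h0 : Q.ν (T.w j) < 1) (L : ℕ) (hL : j ≤ L) :
    ∃ ω : Fin L → Fin s, ∀ l ≤ j, Q.Red (T.w l) (pth r T.c ζ rt (wd ω) (j - l)) := by
  have : NeZero s := ⟨hs.ne'⟩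
  choose! β hβ using fun l (hl : l ≤ J) => Q.res _ (tw_le hr T Q hb l hl)
  have hβ' : ∀ l ≤ J, Q.Red (T.w l) (β l) := hβ
  have h1 : ∀ l < J, β (l + 1) ^ r = β l ^ s + T.c := fun l hl => by
    refine ((hβ' (l + 1) hl).pow r).unique ?_
    rw [T.hw l hl]
    exact ((hβ' l hl.le).pow s).add (Plc.red_const _)
  have h2 : ∀ d, ∃ e < s, d < j → β (j - (d + 1)) = ζ ^ e * rt (β (j - d) ^ r - T.c) := by
    intro d
    by_cases hd : d < j
    · have h3 := h1 (j - (d + 1)) (by omega)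
      rw [show j - (d + 1) + 1 = j - d by omega] at h3
      obtain ⟨ξ, hξ, h4⟩ := exists_mul_of_pow_eq hs (show β (j - (d + 1)) ^ s =
        rt (β (j - d) ^ r - T.c) ^ s by rw [hrt, h3, add_sub_cancel_right])
      obtain ⟨e, he, rfl⟩ := hζ.eq_pow_of_pow_eq_one hξ
      exact ⟨e, he, fun _ => h4⟩
    · exact ⟨0, hs, fun h => absurd h hd⟩
  choose dg hdg hdg' using h2
  have h3 : ∀ d ≤ j, pth r T.c ζ rt dg d = β (j - d) := by
    intro d
    induction d with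
    | zero => exact fun _ => (((hβ' j hj).eq_zero_iff).2 h0).symm
    | succ d ih => exact fun hd => by rw [pth, ih (by omega), hdg' d hd]
  refine ⟨fun d => ⟨dg d, hdg d⟩, fun l hl => ?_⟩
  rw [pth_congr (dg' := dg) fun e he => by simp [wd, show e < L by omega], h3 _ (by omega),
    show j - (j - l) = l by omega]
  exact hβ' l (by omega)

end Tower

theorem fib_le {X k : Type} [Field k] {G V : Finset X} {e : X → k} {M : ℕ} {κ : k} (hκ : κ ≠ 0)
    (hG : ∀ β, (G.filter fun ω => e ω = β).card ≤ M) (Z : Finset k)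
    (hV : ∀ ω ∈ V, ω ∈ G ∧ e ω / κ ∈ Z) : V.card ≤ M * Z.card := by
  refine card_le_mul_card_image_of_maps_to (f := fun ω => e ω / κ) (fun ω hω => (hV ω hω).2) M
    fun β _ => le_trans (card_le_card fun ω hω => ?_) (hG (β * κ))
  obtain ⟨h1, h2⟩ := mem_filter.1 hω
  exact mem_filter.2 ⟨(hV ω h1).1, by rw [← h2, div_mul_cancel₀ _ hκ]⟩

theorem geo_le {s : ℕ} (hs : 2 ≤ s) (D : ℕ) : ∑ j ∈ range (D + 1), s ^ j ≤ 2 * s ^ D := by
  induction D with
  | zero => simp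
  | succ D ih =>
    rw [sum_range_succ, pow_succ]
    nlinarith [Nat.zero_le (s ^ D)]

theorem card_zero_le {k : Type} [Field k] {β : ℕ → k} {i : ℕ}
    (h : ∀ l, 1 ≤ l → l < i → β l ≠ 0) : ((Icc 1 i).filter fun l => β l = 0).card ≤ 1 := by
  refine card_le_one.2 fun a ha b hb => ?_
  have key : ∀ a ∈ (Icc 1 i).filter fun l => β l = 0, a = i := fun a ha => by
    obtain ⟨h1, h2⟩ := mem_filter.1 ha
    rw [mem_Icc] at h1
    by_contra h3
    exact h a h1.1 (by omega) h2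
  rw [key a ha, key b hb]

theorem gp_num {C r s h K ℓ E : ℕ} (hK : 64 * C * r * s ^ h + 3 ≤ K) (hE : K * (ℓ + 1) ≤ E)
    (hs : 2 ≤ s) : 64 * C * r * s ^ h * 8 ^ ℓ < 2 ^ (K * (ℓ + 1)) ∧ 2 ^ (K * (ℓ + 1)) ≤ s ^ E := by
  refine ⟨?_, (Nat.pow_le_pow_right two_pos hE).trans (Nat.pow_le_pow_left hs E)⟩
  rw [mul_add, mul_one, pow_add, mul_comm (2 ^ (K * ℓ)), pow_mul]
  refine Nat.mul_lt_mul_of_lt_of_le ?_ (Nat.pow_le_pow_left ?_ ℓ) (by positivity)
  · exact lt_of_lt_of_le (by omega) (Nat.lt_two_pow_self (n := K)).le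
  · exact Nat.pow_le_pow_right two_pos (show 3 ≤ K by omega)

theorem gp (hP : PlcExStmt) (hC : CntStmt) : GPStmt := by
  intro r s C ρ hr hs hco hC1 hρ0 hρ1
  obtain ⟨C', hC'⟩ := exists_nat_ge C
  have hC'0 : (0 : ℝ) < C' := by linarith
  obtain ⟨h, hh⟩ := exists_pow_lt_of_lt_one (show 0 < 1 / (4 * C' * C) by positivity) hρ1
  refine ⟨64 * C' * r * s ^ h + 3, fun k Ω _ _ _ _ _ _ J ℓ Pm E W S₀ hB hPm hE hW I _ T hI m i A
    hM hEi hiJ hdl => ?_⟩
  obtain ⟨hn1, hn2⟩ := gp_num le_rfl hE hs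
  have hE0 : 0 < E := lt_of_lt_of_le (by positivity) hE
  have hr0 : 0 < r := by omega
  have hs0 : 0 < s := by omega
  obtain ⟨ζ, rt, hζ, hrt, hM⟩ := hM
  obtain ⟨hM1, hM2⟩ := hM i hiJ
  obtain ⟨G, hG1, hG2, -⟩ := hM2 h
  obtain ⟨P, hPn, hPs⟩ := hP k Ω (T m).b (hB.tr _ (T m).hb).1 (hB.tr _ (T m).hb).2
  obtain ⟨Bad, hBad, hgood⟩ := hB.good _ (T m).hb
  choose Zp hZp hZp' using fun m' => hB.part _ (T m).hb _ (T m').hb
  have hfin : (S₀ ∪ ⋃ m', lv (T m').w J).Finite :=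
    hB.fin.union (Set.finite_iUnion fun m' => (Set.finite_Iic J).image _)
  obtain ⟨γ, hγ⟩ := exists_avg _ _ (relIndex_ne_zero_of_finite (hB.tr _ (T m).hb).2 hfin)
  have hn0 := hγ.card_pos
  rw [Fintype.card_fin] at hn0
  generalize (Fix k (S₀ ∪ ⋃ m', lv (T m').w J)).relIndex (Fix k {(T m).b}) = n at γ hγ hn0
  have hlv : ∀ m' j, j ≤ J → lv (T m').w j ⊆ S₀ ∪ ⋃ m', lv (T m').w J := fun m' j hj =>
    ((Set.image_mono (Set.Iic_subset_Iic.2 hj)).trans
      (Set.subset_iUnion (fun m' => lv (T m').w J) m')).trans Set.subset_union_right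
  obtain ⟨Z, hZ1, hZ2, hZ3⟩ : ∃ Z : Finset k, Z.card ≤ 16 * 4 ^ ℓ * s ^ (i - E) ∧ Bad ⊆ Z ∧
      ∀ m' j, j ≤ i - E → ∀ ω : Fin j → Fin s,
        Zp m' (pth r (T m').c ζ rt (wd ω) j / (T m').κ) ⊆ Z := by
    refine ⟨Bad ∪ univ.biUnion fun m' => (range (i - E + 1)).biUnion fun j =>
      univ.biUnion fun ω : Fin j → Fin s => Zp m' (pth r (T m').c ζ rt (wd ω) j / (T m').κ), ?_,
      subset_union_left, fun m' j hj ω x hx => mem_union_right _ (mem_biUnion.2 ⟨m', mem_univ _,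
        mem_biUnion.2 ⟨j, mem_range.2 (by omega), mem_biUnion.2 ⟨ω, mem_univ _, hx⟩⟩⟩)⟩
    have e1 : ∀ m', ((range (i - E + 1)).biUnion fun j => univ.biUnion fun ω : Fin j → Fin s =>
        Zp m' (pth r (T m').c ζ rt (wd ω) j / (T m').κ)).card ≤ 2 * s ^ (i - E) * 2 ^ ℓ := by
      intro m'
      refine card_biUnion_le.trans (le_trans (sum_le_sum fun j _ => ?_)
        ((sum_mul _ _ _).ge.trans (Nat.mul_le_mul_right _ (geo_le hs (i - E)))))
      simpa using card_biUnion_le_card_mul _ _ _ fun (ω : Fin j → Fin s) (_ : ω ∈ univ) =>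
        hZp m' (pth r (T m').c ζ rt (wd ω) j / (T m').κ)
    have e2 := card_biUnion_le_card_mul univ _ _ fun m' _ => e1 m'
    rw [card_univ] at e2
    refine (card_union_le _ _).trans ((add_le_add hBad (e2.trans
      (Nat.mul_le_mul_right _ hI))).trans ?_)
    have e3 : (2 ^ ℓ) ^ 2 = 4 ^ ℓ := by rw [← pow_mul, mul_comm, pow_mul]; norm_num
    have e4 : 2 ^ ℓ ≤ 4 ^ ℓ := Nat.pow_le_pow_left (by norm_num) ℓ
    have e5 : 1 ≤ s ^ (i - E) := Nat.one_le_pow _ _ hs0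
    rw [e3]
    nlinarith
  obtain ⟨V, hV1, hV2⟩ : ∃ V : Finset (Fin i → Fin s), s ^ i ≤ 2 * C' * V.card ∧ ∀ ω ∈ V,
      (∀ d, 1 ≤ d → d ≤ i → pth r (T m).c ζ rt (wd ω) d ≠ 0) ∧ ω ∈ G ∧
        pth r (T m).c ζ rt (wd ω) i / (T m).κ ∉ Z := by
    set V := univ.filter fun ω : Fin i → Fin s =>
      (∀ d, 1 ≤ d → d ≤ i → pth r (T m).c ζ rt (wd ω) d ≠ 0) ∧ ω ∈ G ∧
        pth r (T m).c ζ rt (wd ω) i / (T m).κ ∉ Z with hV
    set V' := G.filter fun ω => pth r (T m).c ζ rt (wd ω) i / (T m).κ ∈ Z with hV'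
    refine ⟨V, ?_, fun ω hω => (mem_filter.1 hω).2⟩
    have e1 : s ^ i ≤ C' * (V.card + Gᶜ.card + V'.card) := by
      have : (s : ℝ) ^ i ≤ C' * ((V ∪ Gᶜ ∪ V').card : ℝ) := by
        refine hM1.trans (mul_le_mul hC' (Nat.cast_le.2 (card_le_card fun ω hω => ?_))
          (Nat.cast_nonneg _) hC'0.le)
        have e := (mem_cnt (Q := fun dg => ∀ d, 1 ≤ d → d ≤ i →
          pth r (T m).c ζ rt dg d ≠ 0)).1 hω
        simp only [hV, hV', mem_union, mem_filter, mem_univ, true_and, mem_compl]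
        tauto
      have e : s ^ i ≤ C' * (V ∪ Gᶜ ∪ V').card := by exact_mod_cast this
      exact e.trans (Nat.mul_le_mul_left _ ((card_union_le _ _).trans
        (Nat.add_le_add_right (card_union_le _ _) _)))
    have e2 : 4 * C' * Gᶜ.card ≤ s ^ i := by
      have : 4 * C' * (Gᶜ.card : ℝ) ≤ (s : ℝ) ^ i := by
        rw [lt_div_iff₀ (by positivity)] at hh
        refine (mul_le_mul_of_nonneg_left hG1 (by positivity)).trans ?_
        rw [← mul_assoc]
        exact mul_le_of_le_one_left (by positivity) (by linarith)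
      exact_mod_cast this
    have e3 : 4 * C' * V'.card ≤ s ^ i := by
      have e := fib_le (T m).hκ hG2 Z fun ω (hω : ω ∈ V') => mem_filter.1 hω
      calc 4 * C' * V'.card ≤ 4 * C' * (s ^ h * 2 ^ ℓ * (16 * 4 ^ ℓ * s ^ (i - E))) :=
            Nat.mul_le_mul_left _ (e.trans (Nat.mul_le_mul (Nat.mul_le_mul_left _ hPm) hZ1))
        _ = 64 * C' * 1 * s ^ h * 8 ^ ℓ * s ^ (i - E) := by
            rw [show 8 = 2 * 4 from rfl, mul_pow]; ring
        _ ≤ 64 * C' * r * s ^ h * 8 ^ ℓ * s ^ (i - E) := by gcongr; exact hr0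
        _ ≤ s ^ E * s ^ (i - E) := Nat.mul_le_mul_right _ (hn1.le.trans hn2)
        _ = s ^ i := by rw [← pow_add, Nat.add_sub_cancel' hEi]
    nlinarith
  by_contra hcon
  have hred : ∀ (β : k) (x : Fin n), ((P (some β)).act (γ x)).ord
      ((T m).b - algebraMap k Ω β) = 1 := fun β x => by
    rw [Plc.act_ord, map_sub, AlgEquiv.commutes, mem_Fix.1 (hγ.1 x) _ rfl, hPs]
  set 𝒯 : Finset (I × ℕ × (Fin i → Fin s)) := univ ×ˢ Ioc (i - E) i ×ˢ univ with h𝒯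
  set cp : (Fin i → Fin s) → I × ℕ × (Fin i → Fin s) → Prop := fun ω t => t.1 ∈ A ∧
    (∀ l, 1 ≤ l → l < t.2.1 → pth r (T t.1).c ζ rt (wd t.2.2) (t.2.1 - l) ≠ 0) ∧
    pth r (T m).c ζ rt (wd ω) i / (T m).κ ∈
      Zp t.1 (pth r (T t.1).c ζ rt (wd t.2.2) t.2.1 / (T t.1).κ) with hcp
  have key : ∀ ω ∈ V, W ≤ r * (𝒯.filter (cp ω)).card := by
    intro ω hω
    obtain ⟨hω1, -, hω2⟩ := hV2 ω hω
    set β₀ := pth r (T m).c ζ rt (wd ω) i / (T m).κ with hβ₀
    obtain ⟨hlow, hup⟩ := hC k Ω r s J (2 ^ ℓ) S₀ (T m) hr hs hco hB (P (some β₀)) _ n γ hγ i hiJ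
      fun l => pth r (T m).c ζ rt (wd ω) (i - l)
    have hb0 : (P (some β₀)).Red (T m).b β₀ := Plc.red_of_ord (by rw [hPs]; exact one_pos)
    have hlow' := hlow (Fix_anti (Set.union_subset
      (Set.singleton_subset_iff.2 (Or.inl (T m).hb)) (hlv m i hiJ))) (by
        have := (Plc.red_const (T m).κ).mul hb0
        rwa [← (T m).h0, hβ₀, mul_div_cancel₀ _ (T m).hκ] at this) fun l hl => by
        have := pth_pow (r := r) (c := (T m).c) hζ.pow_eq_one hrt (wd ω) (i - (l + 1))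
        rw [show i - (l + 1) + 1 = i - l by omega] at this
        rw [this, sub_add_cancel]
    set X := univ.filter fun x : Fin n => ∀ l ≤ i, (P (some β₀)).Red (γ x ((T m).w l))
      (pth r (T m).c ζ rt (wd ω) (i - l)) with hX
    have hX1 : n * r ≤ X.card * r ^ i := by
      refine le_trans (Nat.mul_le_mul_left _ (Nat.le_self_pow ?_ r)) hlow'
      exact (card_pos.2 ⟨i, mem_filter.2 ⟨mem_Icc.2 ⟨by omega, le_rfl⟩, by
        rw [Nat.sub_self]; rfl⟩⟩).ne'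
    set Y : I × ℕ × (Fin i → Fin s) → Finset (Fin n) := fun t => univ.filter fun x =>
      (∀ l ≤ i, (P (some β₀)).Red (γ x ((T m).w l)) (pth r (T m).c ζ rt (wd ω) (i - l))) ∧
        ∀ l ≤ t.2.1, (P (some β₀)).Red (γ x ((T t.1).w l))
          (pth r (T t.1).c ζ rt (wd t.2.2) (t.2.1 - l)) with hY
    have hY1 : ∀ t ∈ 𝒯.filter (cp ω), (Y t).card * (W * r ^ i) ≤ n * r ^ 2 := by
      rintro ⟨m', j, ω'⟩ ht
      obtain ⟨ht1, ht2, ht3, -⟩ := mem_filter.1 ht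
      have hj : i - E < j ∧ j ≤ i := mem_Ioc.1 (mem_product.1 (mem_product.1 ht1).2).1
      have e := hup (T m') j (by omega) (fun l => pth r (T m').c ζ rt (wd ω') (j - l))
        (Fix_anti (Set.union_subset (Set.union_subset Set.subset_union_left (hlv m i hiJ))
          (hlv m' j (by omega))))
      refine (Nat.mul_le_mul_left _ (hdl m' ht2 j hj.2 (by omega))).trans (e.trans
        (Nat.mul_le_mul_left _ (Nat.pow_le_pow_right hr0 ?_)))
      exact add_le_add (card_zero_le fun l a1 a2 => hω1 _ (by omega) (by omega)) (card_zero_le ht3)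
    have hXY : X ⊆ (𝒯.filter (cp ω)).biUnion Y := by
      intro x hx
      have hx' := (mem_filter.1 hx).2
      set Q := (P (some β₀)).act (γ x) with hQ
      obtain ⟨-, hvg, hloc⟩ := hgood β₀ (fun e => hω2 (hZ2 e)) Q (hred β₀ x)
      have hQb : Q.Red (T m).b β₀ := Plc.red_of_ord (by rw [hred]; exact one_pos)
      have hle : ∀ m', Q.ν (T m').b ≤ 1 := fun m' => (hloc _ (T m').hb).eq_one.le
      have hnz : ∀ m', Q.nz (T m').w (i - E) = 0 := fun m' => Plc.nz_eq_zero.2 fun j _ a2 a3 => by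
        obtain ⟨ω', e⟩ := zero_word hr0 hs0 hζ hrt (T m') Q (hle m') (by omega) a3 j le_rfl
        exact hω2 (hZ3 m' j a2 ω' (hZp' m' _ _ Q hQb (red_b (T m') (e 0 (Nat.zero_le _)))))
      have hex : ∃ m' ∈ A, Q.nz (T m').w i ≠ 0 := by
        by_contra e
        push Not at e
        refine hcon ⟨Q, hvg, hloc, Plc.nz_eq_zero.2 fun l a1 a2 a3 => ?_, ?_, hnz, e⟩
        · exact hω1 (i - l) (by omega) (by omega)
            ((((Plc.act_red _ _ _ _).2 (hx' l (by omega))).eq_zero_iff).2 a3)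
        · exact (((Plc.act_red _ _ _ _).2 (hx' i le_rfl)).eq_zero_iff).1 (by
            rw [Nat.sub_self]; rfl)
      obtain ⟨m', hm', e⟩ := hex
      have hj : ∃ j, 1 ≤ j ∧ j ≤ i ∧ Q.ν ((T m').w j) < 1 := by
        by_contra e'
        exact e (Plc.nz_eq_zero.2 fun j a1 a2 a3 => e' ⟨j, a1, a2, a3⟩)
      obtain ⟨a1, a2, a3⟩ := Nat.find_spec hj
      have a4 := fun l (hl : l < Nat.find hj) => Nat.find_min hj hl
      generalize Nat.find hj = j at a1 a2 a3 a4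
      have a5 : i - E < j := not_le.1 fun a => Plc.nz_eq_zero.1 (hnz m') j a1 a a3
      obtain ⟨ω', e'⟩ := zero_word hr0 hs0 hζ hrt (T m') Q (hle m') (by omega) a3 i a2
      refine mem_biUnion.2 ⟨(m', j, ω'), mem_filter.2 ⟨?_, hm', fun l b1 b2 b3 => ?_, ?_⟩,
        mem_filter.2 ⟨mem_univ _, hx', fun l hl => (Plc.act_red _ _ _ _).1 (e' l hl)⟩⟩
      · exact mem_product.2 ⟨mem_univ _, mem_product.2 ⟨mem_Ioc.2 ⟨a5, a2⟩, mem_univ _⟩⟩
      · exact a4 l b2 ⟨b1, b2.le.trans a2, ((e' l b2.le).eq_zero_iff).1 b3⟩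
      · exact hZp' m' _ _ Q hQb (red_b (T m') (e' 0 (Nat.zero_le _)))
    refine Nat.le_of_mul_le_mul_left ?_ (Nat.mul_pos hn0 hr0)
    calc n * r * W ≤ X.card * r ^ i * W := Nat.mul_le_mul_right _ hX1
      _ = X.card * (W * r ^ i) := by ring
      _ ≤ (∑ t ∈ 𝒯.filter (cp ω), (Y t).card) * (W * r ^ i) :=
          Nat.mul_le_mul_right _ ((card_le_card hXY).trans card_biUnion_le)
      _ ≤ (𝒯.filter (cp ω)).card * (n * r ^ 2) := by
          rw [sum_mul]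
          exact sum_le_card_nsmul _ _ _ hY1
      _ = n * r * (r * (𝒯.filter (cp ω)).card) := by ring
  have h1 : V.card * W ≤ r * (𝒯.card * (s ^ h * Pm * 2 ^ ℓ)) := by
    refine (card_nsmul_le_sum V _ W key).trans ?_
    rw [← mul_sum]
    refine Nat.mul_le_mul_left _ ?_
    simp only [card_filter]
    rw [sum_comm]
    refine sum_le_card_nsmul _ _ _ fun t _ => ?_
    rw [← card_filter]
    exact (fib_le (T m).hκ hG2 _ fun ω hω => ⟨(hV2 ω (mem_filter.1 hω).1).2.1,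
      (mem_filter.1 hω).2.2.2⟩).trans (Nat.mul_le_mul_left _ (hZp _ _))
  have h2 : 𝒯.card ≤ 4 * (E * s ^ i) := by
    rw [h𝒯, card_product, card_product, card_univ, card_univ, Nat.card_Ioc,
      Nat.sub_sub_self hEi]
    simpa using Nat.mul_le_mul_right _ hI
  have h3 : s ^ i * (E * 2 ^ ((64 * C' * r * s ^ h + 3) * (ℓ + 1))) ≤
      s ^ i * (E * (64 * C' * r * s ^ h * 8 ^ ℓ)) :=
    calc s ^ i * (E * 2 ^ ((64 * C' * r * s ^ h + 3) * (ℓ + 1))) ≤ 2 * C' * V.card * W :=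
          Nat.mul_le_mul hV1 hW
      _ ≤ 2 * C' * (r * (4 * (E * s ^ i) * (s ^ h * 2 ^ ℓ * 2 ^ ℓ))) := by
          rw [mul_assoc]
          exact Nat.mul_le_mul_left _ (h1.trans (by gcongr))
      _ = s ^ i * (E * (8 * C' * r * s ^ h * (2 * 2) ^ ℓ)) := by rw [mul_pow]; ring
      _ ≤ s ^ i * (E * (64 * C' * r * s ^ h * 8 ^ ℓ)) := by gcongr <;> norm_num
  exact absurd (Nat.le_of_mul_le_mul_left (Nat.le_of_mul_le_mul_left h3 (by positivity)) hE0)
    (not_le.2 hn1)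

end Pool.Agent.MP_09973c_nt.H42
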