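import Pool.Agent.MP_09973c_nt.H42.Cnt

/-!
The tree of forward images of zero: few words meet a finite set at large depth.
-/

set_option autoImplicit false

namespace Pool.Agent.MP_09973c_nt.H42

open Polynomial Finset Classical Pool.Agent.MP_09973c_nt.H58

section Count

variable {k : Type} [Field k] {r s : ℕ} {c ζ : k} {rt : k → k}

theorem digit_eq (hζ : IsPrimitiveRoot ζ s) {e e' : ℕ} (he : e < s) (he' : e' < s) {y : k}
    (h : ζ ^ e * y = ζ ^ e' * y) (h0 : ζ ^ e * y ≠ 0) : e = e' :=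
  hζ.pow_inj he he' (mul_right_cancel₀ (right_ne_zero_of_mul h0) h)

theorem node_step (hr : 0 < r) (hζ : IsPrimitiveRoot ζ s) (hrt : ∀ x, rt x ^ s = x) (d : ℕ)
    (β : k) : cnt s (d + 1) (fun dg => pth r c ζ rt dg (d + 1) = β) ≤ (if β = 0 then s else 1) *
      ∑ γ ∈ (nthRoots r (β ^ s + c)).toFinset, cnt s d fun dg => pth r c ζ rt dg d = γ := by
  refine le_trans ?_ (Nat.mul_le_mul_left _ (cnt_exists_le _ _ _))
  rw [cnt_succ', cnt, card_filter, mul_sum]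
  refine sum_le_sum fun ω _ => ?_
  have h1 : ∀ e : Fin s, pth r c ζ rt (Function.update (wd ω) d e) d = pth r c ζ rt (wd ω) d :=
    fun e => pth_congr fun j hj => Function.update_of_ne hj.ne _ _
  by_cases h : ∃ γ ∈ (nthRoots r (β ^ s + c)).toFinset, pth r c ζ rt (wd ω) d = γ
  · rw [if_pos h, mul_one]
    split_ifs with hβ
    · exact (card_le_univ _).trans (by simp)
    · refine card_le_one.2 fun e he e' he' => Fin.ext ?_
      have h2 := (mem_filter.1 he).2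
      have h3 := (mem_filter.1 he').2
      simp only [pth, h1, Function.update_self] at h2 h3
      exact digit_eq hζ e.2 e'.2 (h2.trans h3.symm) (h2 ▸ hβ)
  · refine le_trans (le_of_eq (card_eq_zero.2 (filter_eq_empty_iff.2 fun e _ he => h ?_)))
      (Nat.zero_le _)
    refine ⟨_, ?_, rfl⟩
    have h2 := pth_pow (r := r) (c := c) hζ.pow_eq_one hrt (Function.update (wd ω) d e) d
    rw [he, h1] at h2
    rw [Multiset.mem_toFinset, mem_nthRoots hr, h2, sub_add_cancel]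

theorem node_cnt (hr : 0 < r) (hs : 0 < s) (hc : c ≠ 0) (hζ : IsPrimitiveRoot ζ s)
    (hrt : ∀ x, rt x ^ s = x) {σ : ℝ} (h1 : (r : ℝ) ≤ σ) (h2 : σ ^ 2 = r * s) (d : ℕ) (β : k) :
    (cnt s d (fun dg => pth r c ζ rt dg d = β) : ℝ) ≤ if β = 0 then σ ^ (d + 1) else σ ^ d := by
  have hσ : 1 ≤ σ := le_trans (by exact_mod_cast hr) h1
  induction d generalizing β with
  | zero =>
    have h3 : cnt s 0 (fun dg => pth r c ζ rt dg 0 = β) ≤ 1 := by
      have := cnt_add_not (s := s) 0 fun dg => pth r c ζ rt dg 0 = β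
      rw [pow_zero] at this
      omega
    have h4 : (cnt s 0 (fun dg => pth r c ζ rt dg 0 = β) : ℝ) ≤ 1 := by exact_mod_cast h3
    split_ifs
    · simpa using h4.trans hσ
    · simpa using h4
  | succ d ih =>
    have h3 : (cnt s (d + 1) (fun dg => pth r c ζ rt dg (d + 1) = β) : ℝ) ≤
        (if β = 0 then (s : ℝ) else 1) * ∑ γ ∈ (nthRoots r (β ^ s + c)).toFinset,
          (cnt s d (fun dg => pth r c ζ rt dg d = γ) : ℝ) := by
      exact_mod_cast node_step hr hζ hrt d β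
    have h4 : ∀ x : k, x ≠ 0 → ∑ γ ∈ (nthRoots r x).toFinset,
        (cnt s d (fun dg => pth r c ζ rt dg d = γ) : ℝ) ≤ r * σ ^ d := fun x hx => by
      refine (sum_le_card_nsmul _ _ (σ ^ d) fun γ hγ => ?_).trans ?_
      · have hγ0 : γ ≠ 0 := by
          rintro rfl
          rw [Multiset.mem_toFinset, mem_nthRoots hr, zero_pow hr.ne'] at hγ
          exact hx hγ.symm
        simpa only [if_neg hγ0] using ih γ
      · rw [nsmul_eq_mul]
        refine mul_le_mul_of_nonneg_right ?_ (by positivity)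
        exact_mod_cast (Multiset.toFinset_card_le _).trans (card_nthRoots r x)
    refine h3.trans ?_
    split_ifs with hβ
    · rw [hβ, zero_pow hs.ne', zero_add]
      refine (mul_le_mul_of_nonneg_left (h4 c hc) (by positivity)).trans (le_of_eq ?_)
      rw [add_assoc, pow_add, h2]
      ring
    · rw [one_mul]
      by_cases hx : β ^ s + c = 0
      · have h5 : (nthRoots r (β ^ s + c)).toFinset ⊆ {0} := fun γ hγ => by
          rw [Multiset.mem_toFinset, mem_nthRoots hr, hx] at hγ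
          exact mem_singleton.2 (pow_eq_zero_iff hr.ne' |>.1 hγ)
        refine (sum_le_sum_of_subset_of_nonneg h5 fun _ _ _ => Nat.cast_nonneg _).trans ?_
        simpa using ih 0
      · refine (h4 _ hx).trans ?_
        rw [pow_succ']
        exact mul_le_mul_of_nonneg_right h1 (by positivity)

theorem bad_cnt (hr : 0 < r) (hs : 0 < s) (hc : c ≠ 0) (hζ : IsPrimitiveRoot ζ s)
    (hrt : ∀ x, rt x ^ s = x) {σ ρ : ℝ} (h1 : (r : ℝ) ≤ σ) (h2 : σ ^ 2 = r * s) (h3 : σ = ρ * s)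
    (h4 : 0 ≤ ρ) (h5 : ρ < 1) (F : Finset k) (h i : ℕ) :
    (cnt s i (fun dg => ¬∀ d, h ≤ d → d ≤ i → pth r c ζ rt dg d ∉ F) : ℝ) ≤
      F.card * σ / (1 - ρ) * ρ ^ h * (s : ℝ) ^ i := by
  have hσ : 1 ≤ σ := le_trans (by exact_mod_cast hr) h1
  have e1 : cnt s i (fun dg => ¬∀ d, h ≤ d → d ≤ i → pth r c ζ rt dg d ∉ F) ≤
      ∑ d ∈ Ico h (i + 1), ∑ β ∈ F, cnt s i fun dg => pth r c ζ rt dg d = β := by
    refine le_trans ?_ (sum_le_sum fun d _ => cnt_exists_le _ _ _)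
    refine le_trans (cnt_mono fun dg hdg => ?_) (cnt_exists_le _ _ _)
    push Not at hdg
    obtain ⟨d, a1, a2, a3⟩ := hdg
    exact ⟨d, mem_Ico.2 ⟨a1, by omega⟩, _, a3, rfl⟩
  have e2 : ∀ d ∈ Ico h (i + 1), ∀ β ∈ F, (cnt s i (fun dg => pth r c ζ rt dg d = β) : ℝ) ≤
      σ * (s : ℝ) ^ i * ρ ^ d := fun d hd β _ => by
    obtain ⟨n, rfl⟩ := Nat.exists_eq_add_of_le (Nat.lt_succ_iff.1 (mem_Ico.1 hd).2)
    rw [cnt_dep (fun dg dg' e h6 => by rw [← pth_congr e, h6]) n]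
    have h6 : (cnt s d (fun dg => pth r c ζ rt dg d = β) : ℝ) ≤ σ ^ (d + 1) := by
      refine (node_cnt hr hs hc hζ hrt h1 h2 d β).trans ?_
      split_ifs
      · exact le_rfl
      · exact pow_le_pow_right₀ hσ (Nat.le_succ d)
    push_cast
    refine (mul_le_mul_of_nonneg_left h6 (by positivity)).trans (le_of_eq ?_)
    rw [pow_succ, pow_add]
    nth_rewrite 1 [h3]
    rw [mul_pow]
    ring
  have e3 : (cnt s i (fun dg => ¬∀ d, h ≤ d → d ≤ i → pth r c ζ rt dg d ∉ F) : ℝ) ≤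
      ∑ d ∈ Ico h (i + 1), F.card * (σ * (s : ℝ) ^ i) * ρ ^ d := by
    have e4 : (cnt s i (fun dg => ¬∀ d, h ≤ d → d ≤ i → pth r c ζ rt dg d ∉ F) : ℝ) ≤
        ∑ d ∈ Ico h (i + 1), ∑ β ∈ F, (cnt s i (fun dg => pth r c ζ rt dg d = β) : ℝ) := by
      exact_mod_cast e1
    refine e4.trans (sum_le_sum fun d hd => ?_)
    refine (sum_le_card_nsmul _ _ _ (e2 d hd)).trans (le_of_eq ?_)
    rw [nsmul_eq_mul, mul_assoc (F.card : ℝ)]
  refine e3.trans ?_
  rw [← mul_sum]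
  refine (mul_le_mul_of_nonneg_left (geom_sum_Ico_le_of_lt_one h4 h5) (by positivity)).trans
    (le_of_eq ?_)
  ring

theorem wd_lt (hs : 0 < s) {i : ℕ} (ω : Fin i → Fin s) (d : ℕ) : wd ω d < s := by
  unfold wd
  split_ifs
  · exact Fin.is_lt _
  · exact hs

/-- Words whose nodes agree and do not vanish from depth `h` on are determined by `h` digits. -/
theorem fibre_le (hs : 0 < s) (hζ : IsPrimitiveRoot ζ s) {i h : ℕ} (T : Finset (Fin i → Fin s))
    (h0 : ∀ ω ∈ T, ∀ d, h ≤ d → d ≤ i → pth r c ζ rt (wd ω) d ≠ 0)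
    (h1 : ∀ ω ∈ T, ∀ ω' ∈ T, ∀ d, h ≤ d → d ≤ i →
      pth r c ζ rt (wd ω) d = pth r c ζ rt (wd ω') d) : T.card ≤ s ^ h := by
  have := card_le_card_of_injOn (s := T) (t := (univ : Finset (Fin h → Fin s)))
    (fun ω j => ⟨wd ω j, wd_lt hs ω j⟩) (fun _ _ => mem_univ _) fun ω hω ω' hω' e => by
      funext j
      have h2 : wd ω j = wd ω' j := by
        by_cases hj : (j : ℕ) < h
        · exact congrArg Fin.val (congrFun e ⟨j, hj⟩)
        · have h3 := h1 ω hω ω' hω' (j + 1) (by omega) j.2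
          have h4 := h0 ω hω (j + 1) (by omega) j.2
          rw [pth] at h4
          rw [pth, pth, ← h1 ω hω ω' hω' j (by omega) j.2.le] at h3
          exact digit_eq hζ (wd_lt hs _ _) (wd_lt hs _ _) h3 h4
      simpa [wd, Fin.ext_iff] using h2
  simpa using this

end Count

theorem of_mem_filter {α : Type} {P : α → Prop} {_ : DecidablePred P} {T : Finset α} {x : α}
    (h : x ∈ T.filter P) : x ∈ T ∧ P x := mem_filter.1 h

theorem node_Sz {p q : ℕ} (hp : 0 < p) (hpq : p < q) {a ζ : Qb} {rt : Qb → Qb} (hζ : ζ ^ q = 1)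
    (hrt : ∀ x, rt x ^ q = x) {d₀ : ℕ} {H : ℝ} (ha : Sz a d₀ H) (dg : ℕ → ℕ) (d : ℕ) :
    Sz (pth p (-a) ζ rt dg d) d₀ (2 + H) := by
  have hH := ha.nonneg
  induction d with
  | zero => exact Sz.zero.mono dvd_rfl (by linarith)
  | succ d ih =>
    have h1 := pth_pow (r := p) (c := -a) hζ hrt dg d
    rw [sub_neg_eq_add] at h1
    refine ⟨fwd_integral hpq ha.1 ih.1 h1.symm, fun g => ?_⟩
    refine le_of_pow_le_pow_left₀ (n := q) (by omega) (by linarith) ?_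
    rw [← norm_pow, ← map_pow, h1, map_add, map_pow]
    refine (norm_add_le _ _).trans ?_
    rw [norm_pow]
    have h2 : ‖g (pth p (-a) ζ rt dg d)‖ ^ p ≤ (2 + H) ^ p :=
      pow_le_pow_left₀ (norm_nonneg _) (ih.2 g) p
    have h3 : (2 + H) ^ (p + 1) ≤ (2 + H) ^ q := pow_le_pow_right₀ (by linarith) hpq
    have h4 : (2 + H) ^ 1 ≤ (2 + H) ^ p := pow_le_pow_right₀ (by linarith) hp
    have h5 := ha.2 g
    rw [pow_succ] at h3
    nlinarith

theorem mbwd (hF : FinFStmt) : MBwdStmt := by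
  intro p q a hp hpq hco ha
  have hp0 : 0 < p := by omega
  have hq0 : 0 < q := by omega
  have hqR : (0 : ℝ) < q := by exact_mod_cast hq0
  have hpqR : (p : ℝ) < q := by exact_mod_cast hpq
  obtain ⟨d₀, hd₀, H, -, hSz⟩ := exists_Sz a
  obtain ⟨m, hfin⟩ := hF p q a (2 + H) d₀ hp hpq hco ha hd₀
  have : NeZero (q : Qb) := ⟨Nat.cast_ne_zero.2 hq0.ne'⟩
  obtain ⟨ζ, hζ⟩ := HasEnoughRootsOfUnity.exists_primitiveRoot Qb q
  choose rt hrt using fun x : Qb => IsAlgClosed.exists_pow_nat_eq x hq0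
  obtain ⟨σ, h1, h2⟩ : ∃ σ : ℝ, (p : ℝ) ≤ σ ∧ σ ^ 2 = p * q :=
    ⟨√(p * q), Real.le_sqrt_of_sq_le (by nlinarith [Nat.cast_nonneg (α := ℝ) p]),
      Real.sq_sqrt (by positivity)⟩
  have hσ0 : 0 < σ := lt_of_lt_of_le (by exact_mod_cast hp0) h1
  obtain ⟨ρ, h3, h4, h5⟩ : ∃ ρ : ℝ, σ = ρ * q ∧ 0 < ρ ∧ ρ < 1 :=
    ⟨σ / q, (div_mul_cancel₀ _ hqR.ne').symm, div_pos hσ0 hqR,
      (div_lt_one hqR).2 (by nlinarith)⟩
  obtain ⟨F, hF0, hF1⟩ : ∃ F : Finset Qb, 0 ∈ F ∧ hfin.toFinset ⊆ F :=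
    ⟨insert 0 hfin.toFinset, mem_insert_self _ _, subset_insert _ _⟩
  have hbad := bad_cnt hp0 hq0 (neg_ne_zero.2 ha) hζ hrt h1 h2 h3 h4.le h5 F
  have hC0 : 0 ≤ F.card * σ / (1 - ρ) := div_nonneg (by positivity) (by linarith)
  generalize F.card * σ / (1 - ρ) = C₁ at hbad hC0
  obtain ⟨n, hn⟩ := exists_pow_lt_of_lt_one (show 0 < 1 / (2 * (C₁ + 1)) by positivity) h5
  have hn1 : C₁ * ρ ^ (n + 1) ≤ 1 / 2 := by
    rw [lt_div_iff₀ (by positivity)] at hn
    have : ρ ^ (n + 1) ≤ ρ ^ n := pow_le_pow_of_le_one h4.le h5.le (Nat.le_succ n)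
    nlinarith [pow_pos h4 n]
  have hinv : 0 < (ρ ^ (m + 1))⁻¹ := by positivity
  refine ⟨2 * (n + 1) + C₁ + (ρ ^ (m + 1))⁻¹, ρ, by nlinarith [Nat.cast_nonneg (α := ℝ) n], h4, h5,
    fun J => ⟨ζ, rt, hζ, hrt, fun i _ => ⟨?_, fun h => ?_⟩⟩⟩
  · have e1 := hbad (n + 1) (i + (n + 1))
    have e2 := cnt_add_not (s := q) (i + (n + 1)) fun dg =>
      ∀ d, n + 1 ≤ d → d ≤ i + (n + 1) → pth p (-a) ζ rt dg d ∉ F
    have e3 : q ^ (i + (n + 1)) ≤ 2 * cnt q (i + (n + 1)) fun dg =>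
        ∀ d, n + 1 ≤ d → d ≤ i + (n + 1) → pth p (-a) ζ rt dg d ∉ F := by
      have e4 := mul_le_mul_of_nonneg_right hn1 (pow_pos hqR (i + (n + 1))).le
      have e5 := congrArg (Nat.cast : ℕ → ℝ) e2
      push_cast at e5
      have : ((q : ℝ)) ^ (i + (n + 1)) ≤ 2 * (cnt q (i + (n + 1)) (fun dg =>
          ∀ d, n + 1 ≤ d → d ≤ i + (n + 1) → pth p (-a) ζ rt dg d ∉ F) : ℝ) := by linarith
      exact_mod_cast this
    have e4 := shift_lemma (r := p) (c := -a) (ζ := ζ) (rt := rt) hq0 i (n + 1) n.succ_pos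
      (e3.trans (Nat.mul_le_mul_left 2 (cnt_mono fun dg hdg d a1 a2 a3 =>
        hdg d a1 a2 (a3 ▸ hF0))))
    have e6 : (q : ℝ) ^ i ≤ 2 * (n + 1) *
        (cnt q i (fun dg => ∀ d, 1 ≤ d → d ≤ i → pth p (-a) ζ rt dg d ≠ 0) : ℝ) := by
      exact_mod_cast e4
    refine e6.trans (mul_le_mul (by linarith) (Nat.cast_le.2 (card_le_card fun ω hω => ?_))
      (Nat.cast_nonneg _) (by positivity))
    exact (mem_cnt (Q := fun dg => ∀ d, 1 ≤ d → d ≤ i → pth p (-a) ζ rt dg d ≠ 0)).2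
      ((mem_cnt (Q := fun dg => ∀ d, 1 ≤ d → d ≤ i → pth p (-a) ζ rt dg d ≠ 0)).1 hω)
  by_cases hh : h < m + 1
  · refine ⟨∅, ?_, fun β => by simp, fun ω hω => absurd hω (notMem_empty _)⟩
    have e1 : 1 ≤ (ρ ^ (m + 1))⁻¹ * ρ ^ h := by
      rw [← div_eq_inv_mul, one_le_div (by positivity)]
      exact pow_le_pow_of_le_one h4.le h5.le hh.le
    have e2 : (1 : ℝ) ≤ (2 * (n + 1) + C₁ + (ρ ^ (m + 1))⁻¹) * ρ ^ h :=
      e1.trans (mul_le_mul_of_nonneg_right (by nlinarith [Nat.cast_nonneg (α := ℝ) n])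
        (by positivity))
    simpa using le_mul_of_one_le_left (pow_pos hqR i).le e2
  set Q : (ℕ → ℕ) → Prop := fun dg => ∀ d, h ≤ d → d ≤ i → pth p (-a) ζ rt dg d ∉ F with hQ
  have hz : ∀ dg, Q dg → ∀ d, h ≤ d → d ≤ i → pth p (-a) ζ rt dg d ≠ 0 :=
    fun dg hdg d a1 a2 a3 => hdg d a1 a2 (a3 ▸ hF0)
  refine ⟨univ.filter fun ω : Fin i → Fin q => Q (wd ω), ?_, fun β => ?_,
    fun ω hω d a1 _ a2 => hz _ (mem_cnt.1 hω) d a1 a2⟩
  · rw [card_compl_cnt]
    refine (hbad h i).trans (mul_le_mul_of_nonneg_right (mul_le_mul_of_nonneg_right ?_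
      (by positivity)) (by positivity))
    nlinarith [Nat.cast_nonneg (α := ℝ) n]
  rw [mul_one]
  refine fibre_le (r := p) (c := -a) (rt := rt) hq0 hζ _
    (fun ω hω => hz _ (mem_cnt.1 (of_mem_filter hω).1)) fun ω hω ω' hω' => ?_
  have hB : ∀ (dg : ℕ → ℕ) (d : ℕ), m ≤ d → Bwd p q a m fun j => pth p (-a) ζ rt dg (d - j) :=
    fun dg d hd j hj => by
      have e := pth_pow (r := p) (c := -a) hζ.pow_eq_one hrt dg (d - (j + 1))
      rw [show d - (j + 1) + 1 = d - j by omega, sub_neg_eq_add] at e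
      exact e.symm
  have key : ∀ e d, d + e = i → h ≤ d →
      pth p (-a) ζ rt (wd ω) d = pth p (-a) ζ rt (wd ω') d := by
    intro e
    induction e with
    | zero =>
      rintro d rfl -
      exact (of_mem_filter hω).2.trans (of_mem_filter hω').2.symm
    | succ e ih =>
      intro d hd a1
      have e1 := ih (d + 1) (by omega) (by omega)
      have e2 := pth_pow (r := p) (c := -a) hζ.pow_eq_one hrt (wd ω) d
      rw [e1, pth_pow hζ.pow_eq_one hrt, sub_left_inj] at e2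
      obtain ⟨ξ, hξ, e3⟩ := exists_mul_of_pow_eq hp0 e2
      by_contra e4
      refine mem_cnt.1 (of_mem_filter hω).1 d a1 (by omega) (hF1 ?_)
      refine hfin.mem_toFinset.2 ⟨ξ, fun j => pth p (-a) ζ rt (wd ω) (d - j),
        fun j => pth p (-a) ζ rt (wd ω') (d - j), hξ, ?_, rfl, e3, hB _ d (by omega),
        hB _ d (by omega), fun j _ => ⟨node_Sz hp0 hpq hζ.pow_eq_one hrt hSz _ _,
          node_Sz hp0 hpq hζ.pow_eq_one hrt hSz _ _⟩⟩
      rintro rfl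
      exact e4 (by rw [e3, one_mul])
  exact fun d a1 a2 => key (i - d) d (by omega) a1

end Pool.Agent.MP_09973c_nt.H42
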